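import Pool.Agent.Q221.NN.HP

/-!
A counterexample in homological degree zero: the irreducible affine Poisson surface
`X = Spec (ℂ + (x, y) ^ 2)` has the symplectic resolution `𝔸² → X` (its normalization), but
`HP_0(O_X) = O_X / {O_X, O_X}` has dimension one, while `H²(𝔸²) = 0`.
-/

set_option autoImplicit false

namespace Pool.Agent.Results.MP_fc9dee_ag.NonNormalSurface

open Pool.Agent.TH212 Pool.Agent.Q221.NN

/-- Let `O` be the algebra of all `f ∈ ℂ[x, y]` with `∂_x f (0) = ∂_y f (0) = 0`, with the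
restriction `P` of the bracket `Q` of `ℂ[x, y]`, `{f, g} = ∂_y f ∂_x g - ∂_x f ∂_y g`. Then `O` is
a finitely generated domain and the morphism `𝔸² → X = Spec O` is a symplectic resolution. The
zeroth Poisson homology `O / {O, O}` has dimension one, and the second algebraic de Rham cohomology
of `𝔸²` (two-forms `f dx ∧ dy` modulo the forms `(∂_x h - ∂_y g) dx ∧ dy`) is zero; moreover the
space `ℂ²` of complex points of `𝔸²` is contractible. -/
theorem result :
    ∃ (O : Subalgebra ℂ (MvPolynomial (Fin 2) ℂ)) (P : PoissonBracket O)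
      (Q : PoissonBracket (MvPolynomial (Fin 2) ℂ)),
      (∀ f, f ∈ O ↔ ∀ i, MvPolynomial.constantCoeff (MvPolynomial.pderiv i f) = 0) ∧
      (∀ f g, Q.br f g = MvPolynomial.pderiv 1 f * MvPolynomial.pderiv 0 g -
        MvPolynomial.pderiv 0 f * MvPolynomial.pderiv 1 g) ∧
      IsDomain O ∧ Algebra.FiniteType ℂ O ∧ IsSymplecticResolution P Q O.val ∧
      Module.finrank ℂ P.HP0 = 1 ∧ Module.finrank ℂ H2dR = 0 ∧ Subsingleton H2dR ∧
      ContractibleSpace (Fin 2 → ℂ) :=
  ⟨OX, PO, PR, fun _ => mem_OX, pb_apply, inferInstance, finiteType_OX, resolution, finrank_HP0,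
    finrank_H2dR, subsingleton_H2dR, inferInstance⟩

end Pool.Agent.Results.MP_fc9dee_ag.NonNormalSurface
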